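import Pool.Agent.H297R2.LPM.Main
import Pool.Agent.H326R2.LPM.Quad
import Pool.Agent.H326R2.LPM.Lin

/-!
# MP_16b26a_nt: quadratic relations between the logarithms `log 2` and `π i` of `2` and `-1`
-/

namespace Pool.Agent.Results.MP_16b26a_nt.LogTwoPiQuadratic

/-- Let `f` be a nonzero polynomial in two variables with rational coefficients, of total degree at most `2`, in which
the monomial `X²` does not occur. Then `f(log 2, π i) ≠ 0`. -/
theorem result (f : MvPolynomial (Fin 2) ℚ) (hf0 : f ≠ 0) (hf : f.totalDegree ≤ 2)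
    (hc : f.coeff (Finsupp.single 0 2) = 0) :
    MvPolynomial.aeval ![(Real.log 2 : ℂ), (Real.pi : ℂ) * Complex.I] f ≠ 0 := by
  refine Pool.Agent.LP.MS.quad_of (Pool.Agent.LP.MS.lin_of fun a b d hbd h => ?_) f hf0 hf hc
  obtain ⟨c, hc0, hm⟩ := Pool.Agent.LP.MS.measure
  have h1 := hm a b d hbd
  rw [h, abs_zero] at h1
  have h2 : 0 < max |(b : ℝ)| |(d : ℝ)| := by
    rcases hbd with hb | hd
    · exact lt_of_lt_of_le (abs_pos.2 (by exact_mod_cast hb)) (le_max_left _ _)
    · exact lt_of_lt_of_le (abs_pos.2 (by exact_mod_cast hd)) (le_max_right _ _)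
  have h3 : 0 < c / (max |(b : ℝ)| |(d : ℝ)|) ^ 223 := by positivity
  linarith

end Pool.Agent.Results.MP_16b26a_nt.LogTwoPiQuadratic
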